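import Pool.Agent.Y782.FF.Stm
import Pool.Agent.TH285.Ff.Main

/-!
# FF-GOOD: existence of a favourable target for general weights
-/

set_option autoImplicit false

namespace Pool.Agent.Y983.FF

open MeasureTheory Finset Filter Pool.Agent.TH285.Ff Pool.Agent.Y782.FF

open Classical in
theorem inner_sum {n : ℕ} (x : ℝ) (w : Fin n → Bool) :
    ∑ z : Fin n → Option Bool, (if agrees z w then x ^ stars z else 0) = (1 + x) ^ n := by
  have h := Finset.prod_univ_sum (fun _ : Fin n => (Finset.univ : Finset (Option Bool)))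
      (fun k y => if y = none then x else if y = some (w k) then (1 : ℝ) else 0)
  rw [Fintype.piFinset_univ] at h
  have h1 : ∀ k, ∑ y : Option Bool,
      (if y = none then x else if y = some (w k) then (1 : ℝ) else 0) = 1 + x := by
    intro k
    rw [Fintype.sum_option, Fintype.sum_bool]
    cases w k <;> simp <;> ring
  simp only [h1] at h
  rw [Finset.prod_const, Finset.card_univ, Fintype.card_fin] at h
  rw [h]
  refine Finset.sum_congr rfl fun z _ => ?_
  by_cases hz : agrees z w
  · rw [if_pos hz]
    have h2 : ∀ k, (if z k = none then x else if z k = some (w k) then (1 : ℝ) else 0) =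
        if z k = none then x else 1 := by
      intro k
      rcases hk : z k with _ | b
      · simp
      · have := hz k b hk
        simp [this]
    rw [Finset.prod_congr rfl fun k _ => h2 k, Finset.prod_ite, Finset.prod_const,
      Finset.prod_const_one, mul_one]
    refine congrArg (fun m => x ^ m) ?_
    unfold stars
    refine congrArg Finset.card ?_
    ext k
    simp only [Finset.mem_filter]
  · rw [if_neg hz]
    unfold agrees at hz
    push Not at hz
    obtain ⟨k, b, h1, h2⟩ := hz
    symm
    apply Finset.prod_eq_zero (Finset.mem_univ k)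
    rw [h1, if_neg (by simp), if_neg]
    intro h3
    exact h2 (Option.some.inj h3).symm

open Classical in
theorem marg_count {n : ℕ} (Q : (Fin n → Bool) → ℝ) (hQ : ∀ w, 0 ≤ Q w) (hs : ∑ w, Q w ≤ 1)
    {x : ℝ} (hx0 : 0 < x) (hx1 : x ≤ 1) (r : ℕ) :
    (∑ z : Fin n → Option Bool, if stars z ≤ r then marg Q z else 0) * x ^ r ≤ (1 + x) ^ n := by
  have hm : ∀ z, 0 ≤ marg Q z := by
    intro z
    unfold marg
    refine Finset.sum_nonneg fun w _ => ?_
    split_ifs
    · exact hQ w
    · exact le_rfl
  have h1 : (∑ z : Fin n → Option Bool, if stars z ≤ r then marg Q z else 0) * x ^ r ≤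
      ∑ z : Fin n → Option Bool, marg Q z * x ^ stars z := by
    rw [Finset.sum_mul]
    refine Finset.sum_le_sum fun z _ => ?_
    split_ifs with hz
    · exact mul_le_mul_of_nonneg_left (pow_le_pow_of_le_one hx0.le hx1 hz) (hm z)
    · rw [zero_mul]
      exact mul_nonneg (hm z) (pow_nonneg hx0.le _)
  have h2 : ∑ z : Fin n → Option Bool, marg Q z * x ^ stars z =
      ∑ w, Q w * (1 + x) ^ n := by
    have h3 : ∀ z : Fin n → Option Bool, marg Q z * x ^ stars z =
        ∑ w, Q w * (if agrees z w then x ^ stars z else 0) := by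
      intro z
      unfold marg
      rw [Finset.sum_mul]
      refine Finset.sum_congr rfl fun w _ => ?_
      by_cases h : agrees z w
      · rw [if_pos h, if_pos h]
      · rw [if_neg h, if_neg h, zero_mul, mul_zero]
    rw [Finset.sum_congr rfl fun z _ => h3 z, Finset.sum_comm]
    refine Finset.sum_congr rfl fun w _ => ?_
    rw [← Finset.mul_sum, inner_sum]
  rw [h2, ← Finset.sum_mul] at h1
  refine h1.trans ?_
  have h4 : 0 ≤ (1 + x) ^ n := by positivity
  exact mul_le_of_le_one_left h4 hs

/-- FF-GOOD -/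
theorem good : S_GOOD := by
  classical
  intro a n c lam ε hlam Q hQ hQs hx hG
  by_contra hno
  have hno' : ∀ z : Fin n → Option Bool, stars z ≤ ⌊ε * n⌋₊ →
      wt (nu a) {u | Kw c u = z} ≤ marg (Q n) z * lam ^ (2 * n) / 4 := by
    intro z hz
    by_contra h
    exact hno ⟨z, hz, not_le.1 h⟩
  obtain ⟨x, hx0, hx1, hx2⟩ := hx
  set R := ⌊ε * n⌋₊ with hR
  set S : ℝ := ∑ z : Fin n → Option Bool, if stars z ≤ R then marg (Q n) z else 0 with hS
  have hsc : S * x ^ R ≤ (1 + x) ^ n := marg_count (Q n) (hQ n) (hQs n) hx0 hx1 R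
  have h1 : S * lam ^ n ≤ 1 := by
    have h2 := hx2 n
    rw [← hR] at h2
    have h3 : 0 < x ^ R := by positivity
    have h4 : S * x ^ R * lam ^ n ≤ (1 + x) ^ n * lam ^ n :=
      mul_le_mul_of_nonneg_right hsc (by positivity)
    have h5 : (S * lam ^ n) * x ^ R ≤ 1 * x ^ R := by
      calc (S * lam ^ n) * x ^ R = S * x ^ R * lam ^ n := by ring
        _ ≤ (1 + x) ^ n * lam ^ n := h4
        _ ≤ x ^ R := h2
        _ = 1 * x ^ R := (one_mul _).symm
    exact le_of_mul_le_mul_right h5 h3
  have h2 : wt (nu a) {u : Fin n → Fin (2 ^ a) | stars (Kw c u) ≤ R} ≤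
      S * (lam ^ (2 * n) / 4) := by
    rw [wt_partition, hS, Finset.sum_mul]
    refine Finset.sum_le_sum fun z _ => ?_
    by_cases hz : stars z ≤ R
    · rw [if_pos hz, if_pos hz]
      have := hno' z hz
      linarith
    · rw [if_neg hz, if_neg hz, zero_mul]
  have h3 : S * (lam ^ (2 * n) / 4) ≤ lam ^ n / 4 := by
    calc S * (lam ^ (2 * n) / 4) = (S * lam ^ n) * (lam ^ n / 4) := by
          rw [two_mul, pow_add]; ring
      _ ≤ 1 * (lam ^ n / 4) := mul_le_mul_of_nonneg_right h1 (by positivity)
      _ = lam ^ n / 4 := one_mul _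
  have h4 : 0 < lam ^ n := by positivity
  linarith

end Pool.Agent.Y983.FF
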